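import Pool.Agent.PFE.StmtsE1

/-!
# Squad PFE, row TXR: rules for `N_x` and `T_c`
-/

set_option autoImplicit false

open scoped BigOperators

namespace Pool.Agent.PFE.H82

open Pool.Agent.PFE

variable {R A X : Type} [CommRing R] [Ring A] [Algebra R A] [Group X]

theorem pow_n {y : A} {χ : X →* R} {x : X} {n : A} (hn : n ∈ Nx y χ x) (j : ℕ) :
    y ^ j * n = χ x ^ j • (n * y ^ j) := by
  have h : y * n = χ x • (n * y) := hn
  induction j with
  | zero => simp
  | succ j ih =>
    rw [pow_succ, mul_assoc, h, mul_smul_comm, ← mul_assoc, ih, smul_mul_assoc, smul_smul,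
      mul_assoc, ← pow_succ, ← pow_succ']

theorem n_pow {y : A} {l : ℕ} {χ : X →* R} (hχ : ∀ x, χ x ^ (l - 1) = 1) {x : X} {n : A}
    (hn : n ∈ Nx y χ x) (j : ℕ) (hj : j < l) :
    n * y ^ j = χ x ^ (l - 1 - j) • (y ^ j * n) := by
  rw [pow_n hn j, smul_smul, ← pow_add, show l - 1 - j + j = l - 1 by omega, hχ x, one_smul]

theorem tx_n {y : A} {l : ℕ} {χ : X →* R} (hl : 1 ≤ l) (x x' : X) (n : A)
    (hn : n ∈ Nx y χ x') :
    Tx y l (χ x) n = (∑ k ∈ Finset.range l, χ (x * x'⁻¹) ^ k) • (y ^ (l - 1) * n) := by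
  unfold Tx
  rw [Finset.sum_smul, ← Finset.sum_range_reflect]
  refine Finset.sum_congr rfl fun k hk => ?_
  have hk' : k < l := Finset.mem_range.1 hk
  have h1 : l - 1 - (l - 1 - k) = k := by omega
  rw [h1]
  have h2 : y ^ (l - 1) * n = y ^ (l - 1 - k) * (χ x' ^ k • (n * y ^ k)) := by
    rw [← pow_n hn k, ← mul_assoc, ← pow_add, show l - 1 - k + k = l - 1 by omega]
  have h3 : χ (x * x'⁻¹) ^ k * χ x' ^ k = χ x ^ k := by
    rw [← mul_pow, ← map_mul, inv_mul_cancel_right]
  rw [h2, mul_smul_comm, smul_smul, h3, mul_assoc]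

theorem txr : TxrStmt := by
  intro R A X _ _ _ _ y l χ hl hy hχ
  refine ⟨?_, ?_, ?_, ?_, ?_, ?_, ?_⟩
  · intro x a
    show y * Tx y l (χ x) a = χ x • (Tx y l (χ x) a * y)
    obtain ⟨F, hF⟩ : ∃ F : ℕ → A, F = fun j => χ x ^ (l - j) • (y ^ j * a * y ^ (l - j)) :=
      ⟨_, rfl⟩
    have h1 : y * Tx y l (χ x) a = ∑ j ∈ Finset.range l, F (j + 1) := by
      unfold Tx
      rw [Finset.mul_sum]
      refine Finset.sum_congr rfl fun j _ => ?_
      rw [hF]
      show y * (χ x ^ (l - 1 - j) • (y ^ j * a * y ^ (l - 1 - j))) =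
        χ x ^ (l - (j + 1)) • (y ^ (j + 1) * a * y ^ (l - (j + 1)))
      rw [show l - (j + 1) = l - 1 - j by omega, mul_smul_comm, pow_succ', mul_assoc, mul_assoc,
        mul_assoc]
    have h2 : χ x • (Tx y l (χ x) a * y) = ∑ j ∈ Finset.range l, F j := by
      unfold Tx
      rw [Finset.sum_mul, Finset.smul_sum]
      refine Finset.sum_congr rfl fun j hj => ?_
      rw [hF]
      have hj' : j < l := Finset.mem_range.1 hj
      show χ x • (χ x ^ (l - 1 - j) • (y ^ j * a * y ^ (l - 1 - j)) * y) =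
        χ x ^ (l - j) • (y ^ j * a * y ^ (l - j))
      rw [show l - j = l - 1 - j + 1 by omega, smul_mul_assoc, smul_smul, ← pow_succ', pow_succ y,
        mul_assoc (y ^ j * a)]
    have h3 : F l = 0 := by
      rw [hF]
      show χ x ^ (l - l) • (y ^ l * a * y ^ (l - l)) = 0
      rw [hy, zero_mul, zero_mul, smul_zero]
    have h4 : F 0 = 0 := by
      rw [hF]
      show χ x ^ (l - 0) • (y ^ 0 * a * y ^ (l - 0)) = 0
      rw [Nat.sub_zero, hy, mul_zero, smul_zero]
    have h5 := Finset.sum_range_succ F l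
    have h6 := Finset.sum_range_succ' F l
    rw [h3, add_zero] at h5
    rw [h4, add_zero] at h6
    rw [h1, h2, ← h6, h5]
  · intro x x' n a hn
    unfold Tx
    rw [Finset.mul_sum]
    refine Finset.sum_congr rfl fun j hj => ?_
    rw [mul_smul_comm, ← mul_assoc, ← mul_assoc, n_pow hχ hn j (Finset.mem_range.1 hj),
      smul_mul_assoc, smul_mul_assoc, smul_smul, map_mul, mul_pow, mul_comm (χ x' ^ _),
      mul_assoc (y ^ j) n a]
  · intro x x' n a hn
    unfold Tx
    rw [Finset.sum_mul]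
    refine Finset.sum_congr rfl fun j hj => ?_
    rw [smul_mul_assoc, mul_assoc, pow_n hn (l - 1 - j), mul_smul_comm, smul_smul, map_mul,
      mul_pow, ← mul_assoc, ← mul_assoc]
  · intro c a
    constructor
    · unfold Tx
      rw [Finset.mul_sum]
      refine Finset.sum_congr rfl fun j _ => ?_
      rw [mul_smul_comm, ← mul_assoc, ← mul_assoc, ← mul_assoc, ← pow_succ', pow_succ]
    · unfold Tx
      rw [Finset.sum_mul]
      refine Finset.sum_congr rfl fun j _ => ?_
      rw [smul_mul_assoc, mul_assoc (y ^ j * a), ← pow_succ, pow_succ', ← mul_assoc,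
        mul_assoc (y ^ j) a y]
  · intro x n hn
    have h : y * n = χ x • (n * y) := hn
    refine ⟨?_, ?_, pow_n hn⟩
    · show y * (y * n) = χ x • (y * n * y)
      rw [h, mul_smul_comm, ← mul_assoc, h]
    · show y * (n * y) = χ x • (n * y * y)
      rw [← mul_assoc, h, smul_mul_assoc]
  · intro x x' n hu hn
    rw [tx_n hl x x' n hn]
    have h1 : ∑ k ∈ Finset.range (l - 1), χ (x * x'⁻¹) ^ k = 0 := by
      have h2 := mul_neg_geom_sum (χ (x * x'⁻¹)) (l - 1)
      rw [hχ, sub_self] at h2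
      exact (hu.mul_right_eq_zero).1 h2
    have h2 : l = l - 1 + 1 := by omega
    rw [h2, Finset.sum_range_succ, h1, zero_add, hχ, one_smul]
  · intro x n hn
    rw [tx_n hl x x n hn]
    congr 1
    simp
end Pool.Agent.PFE.H82
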